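import Pool.Agent.Lib.FPS.Main2

/-!
# Fat points on general surfaces in `P^3`: the expected dimension outside a small window

A surface of degree `d` in `P^3` is given, in the affine chart `ℂ^3`, by a polynomial `F` of total
degree `d` in three variables; curves in `|O_S(e)|` are cut out by the polynomials `G` of total degree
`≤ e`, modulo the multiples of `F`.
-/

namespace Pool.Agent.Results.MP_9d2805_ag.ExpectedDimension

open MvPolynomial

/-- the maximal ideal of the point `p` of affine space -/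
noncomputable def pointIdeal (p : Fin 3 → ℂ) : Ideal (MvPolynomial (Fin 3) ℂ) :=
  Ideal.span (Set.range fun i => X i - C (p i))

/-- polynomials `G` of total degree `≤ e` which cut out on the surface `F = 0` a curve with
multiplicity `≥ m l` at the point `p l`, for all `l` (or which vanish on the surface) -/
noncomputable def series (F : MvPolynomial (Fin 3) ℂ) (e : ℕ) {r : ℕ} (p : Fin r → Fin 3 → ℂ)
    (m : Fin r → ℕ) : Submodule ℂ (MvPolynomial (Fin 3) ℂ) where
  carrier := {G | G.totalDegree ≤ e ∧ ∀ l, G ∈ Ideal.span {F} ⊔ pointIdeal (p l) ^ m l}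
  add_mem' := by
    rintro G H ⟨h1, h2⟩ ⟨h3, h4⟩
    exact ⟨(MvPolynomial.totalDegree_add G H).trans (max_le h1 h3),
      fun l => Ideal.add_mem _ (h2 l) (h4 l)⟩
  zero_mem' := ⟨by simp, fun l => Ideal.zero_mem _⟩
  smul_mem' := by
    rintro c G ⟨h1, h2⟩
    refine ⟨(MvPolynomial.totalDegree_smul_le c G).trans h1, fun l => ?_⟩
    rw [MvPolynomial.smul_eq_C_mul]
    exact Ideal.mul_mem_left _ _ (h2 l)

/-- the multiples of `F` of total degree `≤ e` -/
noncomputable def multiples (F : MvPolynomial (Fin 3) ℂ) (e : ℕ) :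
    Submodule ℂ (MvPolynomial (Fin 3) ℂ) where
  carrier := {G | G.totalDegree ≤ e ∧ F ∣ G}
  add_mem' := by
    rintro G H ⟨h1, h2⟩ ⟨h3, h4⟩
    exact ⟨(totalDegree_add G H).trans (max_le h1 h3), dvd_add h2 h4⟩
  zero_mem' := ⟨by simp, dvd_zero F⟩
  smul_mem' := by
    rintro c G ⟨h1, h2⟩
    refine ⟨(totalDegree_smul_le c G).trans h1, ?_⟩
    rw [smul_eq_C_mul]
    exact Dvd.dvd.mul_left h2 _

/-- `h^0(O_S(e))` for a surface `S` of degree `d` in `P^3` -/
def sections (d e : ℕ) : ℕ :=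
  (e + 3).choose 3 - (if d ≤ e then (e - d + 3).choose 3 else 0)

/-- `m (m + 1) / 2`, the number of conditions imposed by a point of multiplicity `m` -/
def cond (m : ℕ) : ℕ := m * (m + 1) / 2

/-- `s = ⌊√(min d e)⌋` -/
def rt (d e : ℕ) : ℕ := (min d e).sqrt

/-- `D = 1 + ⌊min d e / s⌋`; this is at most `s + 3` -/
def wid (d e : ℕ) : ℕ := 1 + min d e / rt d e

/-- the error term `E = (e + 1) D (μ + s (s + 2))` -/
def err (d e μ : ℕ) : ℕ := (e + 1) * wid d e * (μ + rt d e * (rt d e + 2))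

/-- the error term `2 μ (e + 1) + k μ^2 min (μ, d - 1)`, used with `k = 4` and `k = 11`; it is the
better one for small multiplicities -/
def err1 (k d e μ : ℕ) : ℕ := 2 * μ * (e + 1) + k * μ ^ 2 * min μ (d - 1)

/-- **Outside the window the general series has the expected dimension.** Let `d ≥ 4`, `e ≥ 1` and
`m_1, ..., m_r ≤ μ`. Suppose that
`∑_{m_l ≥ 2} m_l (m_l + 1) / 2 + min (2 μ (e + 1) + 4 μ^2 min (μ, d - 1), E) ≤ h^0(O_S(e))`, or
`∑ m_l (m_l + 1) / 2 > h^0(O_S(e)) + 2 μ (e + 1) + 11 μ^2 min (μ, d - 1)`, or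
`∑ m_l (m_l + 1) / 2 > h^0(O_S(e)) + E + μ (2 μ + 3)`, or some
`m_l ≥ (s + 1) (e + 1) + (e + 2) D`. Then for a general polynomial `F` of degree `≤ d` (outside the
zero set of a polynomial `Φ` in its coefficients) and general points `p_1, ..., p_r` on the surface
`S : F = 0` (outside the zero set of a polynomial `Ψ`) the space of the polynomials of degree `≤ e`
with multiplicity `≥ m_l` at `p_l` along `S` has, modulo the multiples of `F`, the expected dimension
`max (0, h^0(O_S(e)) - ∑ m_l (m_l + 1) / 2)`. -/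
theorem result (d e : ℕ) (hd : 4 ≤ d) (he : 1 ≤ e) {r : ℕ} (m : Fin r → ℕ) (μ : ℕ)
    (hμ : ∀ l, m l ≤ μ)
    (h : (∑ l, (if 2 ≤ m l then cond (m l) else 0)) + min (err1 4 d e μ) (err d e μ)
        ≤ sections d e ∨
      sections d e + err1 11 d e μ < ∑ l, cond (m l) ∨
      sections d e + err d e μ + μ * (2 * μ + 3) < ∑ l, cond (m l) ∨
      ∃ l, (rt d e + 1) * (e + 1) + (e + 2) * wid d e ≤ m l) :
    ∃ Φ : MvPolynomial (Fin 3 →₀ ℕ) ℂ,
      (∃ F : MvPolynomial (Fin 3) ℂ, F.totalDegree ≤ d ∧ eval (fun α => coeff α F) Φ ≠ 0) ∧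
      ∀ F : MvPolynomial (Fin 3) ℂ, F.totalDegree ≤ d → eval (fun α => coeff α F) Φ ≠ 0 →
        F.totalDegree = d ∧
        ∃ Ψ : MvPolynomial (Fin r × Fin 3) ℂ,
          (∃ p : Fin r → Fin 3 → ℂ, (∀ l, eval (p l) F = 0) ∧
            eval (fun i : Fin r × Fin 3 => p i.1 i.2) Ψ ≠ 0) ∧
          ∀ p : Fin r → Fin 3 → ℂ, (∀ l, eval (p l) F = 0) →
            eval (fun i : Fin r × Fin 3 => p i.1 i.2) Ψ ≠ 0 →
            Module.finrank ℂ (series F e p m)
              = Module.finrank ℂ (multiples F e) + (sections d e - ∑ l, cond (m l)) := by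
  have h1 : FPS.Outside2 d e m μ := h
  exact FPS.expected2 d e hd he m μ hμ h1

end Pool.Agent.Results.MP_9d2805_ag.ExpectedDimension
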