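import Pool.Agent.Lib.FPW.AsmI

/-!
# Fat points on general surfaces in `P^3`: the general member is irreducible

A surface of degree `d` in `P^3` is given, in the affine chart `ℂ^3`, by a polynomial `F` of total
degree `d` in three variables; curves in `|O_S(e)|` are cut out by the polynomials `G` of total degree
`≤ e`, modulo the multiples of `F`. If `Pic S` is generated by the hyperplane class, a reducible or
nonreduced curve of `|O_S(e)|` is a sum of curves of `|O_S(e1)|` and `|O_S(e2)|`, `e1 + e2 = e`,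
`e1, e2 ≥ 1`, i.e. `G ≡ G1 G2` modulo `F` with `deg G1 ≤ e1`, `deg G2 ≤ e2`.
-/

namespace Pool.Agent.Results.MP_9d2805_ag.IrreducibleMembers

open MvPolynomial

/-- the maximal ideal of the point `p` of affine space -/
noncomputable def pointIdeal (p : Fin 3 → ℂ) : Ideal (MvPolynomial (Fin 3) ℂ) :=
  Ideal.span (Set.range fun i => X i - C (p i))

/-- polynomials `G` of total degree `≤ e` which cut out on the surface `F = 0` a curve with
multiplicity `≥ m l` at the point `p l`, for all `l` (or which vanish on the surface) -/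
noncomputable def series (F : MvPolynomial (Fin 3) ℂ) (e : ℕ) {r : ℕ} (p : Fin r → Fin 3 → ℂ)
    (m : Fin r → ℕ) : Submodule ℂ (MvPolynomial (Fin 3) ℂ) where
  carrier := {G | G.totalDegree ≤ e ∧ ∀ l, G ∈ Ideal.span {F} ⊔ pointIdeal (p l) ^ m l}
  add_mem' := by
    rintro G H ⟨h1, h2⟩ ⟨h3, h4⟩
    exact ⟨(MvPolynomial.totalDegree_add G H).trans (max_le h1 h3),
      fun l => Ideal.add_mem _ (h2 l) (h4 l)⟩
  zero_mem' := ⟨by simp, fun l => Ideal.zero_mem _⟩
  smul_mem' := by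
    rintro c G ⟨h1, h2⟩
    refine ⟨(MvPolynomial.totalDegree_smul_le c G).trans h1, fun l => ?_⟩
    rw [MvPolynomial.smul_eq_C_mul]
    exact Ideal.mul_mem_left _ _ (h2 l)

/-- the multiples of `F` of total degree `≤ e` -/
noncomputable def multiples (F : MvPolynomial (Fin 3) ℂ) (e : ℕ) :
    Submodule ℂ (MvPolynomial (Fin 3) ℂ) where
  carrier := {G | G.totalDegree ≤ e ∧ F ∣ G}
  add_mem' := by
    rintro G H ⟨h1, h2⟩ ⟨h3, h4⟩
    exact ⟨(totalDegree_add G H).trans (max_le h1 h3), dvd_add h2 h4⟩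
  zero_mem' := ⟨by simp, dvd_zero F⟩
  smul_mem' := by
    rintro c G ⟨h1, h2⟩
    refine ⟨(totalDegree_smul_le c G).trans h1, ?_⟩
    rw [smul_eq_C_mul]
    exact Dvd.dvd.mul_left h2 _

/-- `h^0(O_S(e))` for a surface `S` of degree `d` in `P^3` -/
def sections (d e : ℕ) : ℕ :=
  (e + 3).choose 3 - (if d ≤ e then (e - d + 3).choose 3 else 0)

/-- `m (m + 1) / 2`, the number of conditions imposed by a point of multiplicity `m` -/
def cond (m : ℕ) : ℕ := m * (m + 1) / 2

/-- `s = ⌊√(min d e)⌋` -/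
def rt (d e : ℕ) : ℕ := (min d e).sqrt

/-- `D = 1 + ⌊min d e / s⌋`; this is at most `s + 3` -/
def wid (d e : ℕ) : ℕ := 1 + min d e / rt d e

/-- the error term `(e + 1) D (μ + s (s + 2))` -/
def err (d e μ : ℕ) : ℕ := (e + 1) * wid d e * (μ + rt d e * (rt d e + 2))

/-- the error term `2 μ (e + 1) + 4 μ^2 min (μ, d - 1)`; it is the better one for small
multiplicities -/
def err1 (d e μ : ℕ) : ℕ := 2 * μ * (e + 1) + 4 * μ ^ 2 * min μ (d - 1)

/-- **Expected dimension and irreducible general member.** Let `d ≥ 4`, `e ≥ 3`, `m_1, ..., m_r ≤ μ`,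
`∑ m_l (m_l + 1) / 2 < h^0(O_S(e))`, and suppose that
`∑_{m_l ≥ 2} m_l (m_l + 1) / 2 + min (err1 d (e - 1) μ) (err d (e - 1) μ) ≤ h^0(O_S(e - 1))`, or that
`2 ≤ μ`, `25 μ^2 < e` and `∑_{m_k ≥ m_l} m_k (m_k + 1) / 2 + 3 m_l μ^2 ≤ h^0(O_S(e - 1))` for all `l` with
`m_l ≥ 2` (so there may be arbitrarily many simple points, as long as the expected dimension is
`≥ 0`). Then for a general polynomial `F` of degree `≤ d` and general points
`p_1, ..., p_r` on the surface `S : F = 0` the space of the polynomials of degree `≤ e` with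
multiplicity `≥ m_l` at `p_l` along `S` has, modulo the multiples of `F`, the expected dimension, and
its general element `G` (outside the zero set of a polynomial `P` in the coefficients, which is not
everything) is not a product `G1 G2` modulo `F` with `deg G1 ≤ e1`, `deg G2 ≤ e2`, `e1 + e2 = e`,
`e1, e2 ≥ 1`; in particular `G` is not a multiple of `F`. -/
theorem result (d e : ℕ) (hd : 4 ≤ d) (he : 3 ≤ e) {r : ℕ} (m : Fin r → ℕ) (μ : ℕ)
    (hμ : ∀ l, m l ≤ μ)
    (h : (∑ l, (if 2 ≤ m l then cond (m l) else 0))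
        + min (err1 d (e - 1) μ) (err d (e - 1) μ) ≤ sections d (e - 1) ∨
      (2 ≤ μ ∧ 25 * μ ^ 2 < e ∧ ∀ l, 2 ≤ m l →
        ∑ k, (if m l ≤ m k then cond (m k) else 0) + 3 * m l * μ ^ 2 ≤ sections d (e - 1)))
    (hlt : ∑ l, cond (m l) < sections d e) :
    ∃ Φ : MvPolynomial (Fin 3 →₀ ℕ) ℂ,
      (∃ F : MvPolynomial (Fin 3) ℂ, F.totalDegree ≤ d ∧ eval (fun α => coeff α F) Φ ≠ 0) ∧
      ∀ F : MvPolynomial (Fin 3) ℂ, F.totalDegree ≤ d → eval (fun α => coeff α F) Φ ≠ 0 →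
        F.totalDegree = d ∧ Prime F ∧
        ∃ Ψ : MvPolynomial (Fin r × Fin 3) ℂ,
          (∃ p : Fin r → Fin 3 → ℂ, (∀ l, eval (p l) F = 0) ∧
            eval (fun i : Fin r × Fin 3 => p i.1 i.2) Ψ ≠ 0) ∧
          ∀ p : Fin r → Fin 3 → ℂ, (∀ l, eval (p l) F = 0) →
            eval (fun i : Fin r × Fin 3 => p i.1 i.2) Ψ ≠ 0 →
            Module.finrank ℂ (series F e p m)
              = Module.finrank ℂ (multiples F e) + (sections d e - ∑ l, cond (m l)) ∧
            ∃ P : MvPolynomial (Fin 3 →₀ ℕ) ℂ,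
              (∃ G ∈ series F e p m, eval (fun α => coeff α G) P ≠ 0) ∧
              ∀ G ∈ series F e p m, eval (fun α => coeff α G) P ≠ 0 →
                ∀ e1 e2 : ℕ, 1 ≤ e1 → 1 ≤ e2 → e1 + e2 = e → ∀ G1 G2 : MvPolynomial (Fin 3) ℂ,
                  G1.totalDegree ≤ e1 → G2.totalDegree ≤ e2 → ¬ F ∣ G - G1 * G2 := by
  have h1 : ∑ l, (if 2 ≤ m l then FPS.T (m l) else 0)
      + min (FPS.err1 d (e - 1) μ) (FPS.err d (e - 1) μ) ≤ FPS.h0 d (e - 1) ∨
      (2 ≤ μ ∧ 25 * μ ^ 2 < e ∧ FPS.Low d (e - 1) μ m) := h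
  have h2 : ∑ l, FPS.T (m l) < FPS.h0 d e := hlt
  exact FPS.irr_main4 d e hd he m μ hμ h1 h2

end Pool.Agent.Results.MP_9d2805_ag.IrreducibleMembers
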