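import Pool.Agent.Lib.FPI.MainI

/-!
# Fat points on general surfaces in `P^3`: large degree

A surface of degree `d` in `P^3` is given, in the affine chart `ℂ^3`, by a polynomial `F` of total
degree `d` in three variables; curves in `|O_S(e)|` are cut out by the polynomials `G` of total degree
`≤ e`, modulo the multiples of `F`. If `Pic S` is generated by the hyperplane class, a reducible or
nonreduced curve of `|O_S(e)|` is a sum of curves of `|O_S(e1)|` and `|O_S(e2)|`, `e1 + e2 = e`,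
`e1, e2 ≥ 1`, i.e. `G ≡ G1 G2` modulo `F` with `deg G1 ≤ e1`, `deg G2 ≤ e2`.
-/

namespace Pool.Agent.Results.MP_9d2805_ag.LargeDegree

open MvPolynomial

/-- the maximal ideal of the point `p` of affine space -/
noncomputable def pointIdeal (p : Fin 3 → ℂ) : Ideal (MvPolynomial (Fin 3) ℂ) :=
  Ideal.span (Set.range fun i => X i - C (p i))

/-- polynomials `G` of total degree `≤ e` which cut out on the surface `F = 0` a curve with
multiplicity `≥ m l` at the point `p l`, for all `l` (or which vanish on the surface) -/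
noncomputable def series (F : MvPolynomial (Fin 3) ℂ) (e : ℕ) {r : ℕ} (p : Fin r → Fin 3 → ℂ)
    (m : Fin r → ℕ) : Submodule ℂ (MvPolynomial (Fin 3) ℂ) where
  carrier := {G | G.totalDegree ≤ e ∧ ∀ l, G ∈ Ideal.span {F} ⊔ pointIdeal (p l) ^ m l}
  add_mem' := by
    rintro G H ⟨h1, h2⟩ ⟨h3, h4⟩
    exact ⟨(MvPolynomial.totalDegree_add G H).trans (max_le h1 h3),
      fun l => Ideal.add_mem _ (h2 l) (h4 l)⟩
  zero_mem' := ⟨by simp, fun l => Ideal.zero_mem _⟩
  smul_mem' := by
    rintro c G ⟨h1, h2⟩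
    refine ⟨(MvPolynomial.totalDegree_smul_le c G).trans h1, fun l => ?_⟩
    rw [MvPolynomial.smul_eq_C_mul]
    exact Ideal.mul_mem_left _ _ (h2 l)

/-- the multiples of `F` of total degree `≤ e` -/
noncomputable def multiples (F : MvPolynomial (Fin 3) ℂ) (e : ℕ) :
    Submodule ℂ (MvPolynomial (Fin 3) ℂ) where
  carrier := {G | G.totalDegree ≤ e ∧ F ∣ G}
  add_mem' := by
    rintro G H ⟨h1, h2⟩ ⟨h3, h4⟩
    exact ⟨(totalDegree_add G H).trans (max_le h1 h3), dvd_add h2 h4⟩
  zero_mem' := ⟨by simp, dvd_zero F⟩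
  smul_mem' := by
    rintro c G ⟨h1, h2⟩
    refine ⟨(totalDegree_smul_le c G).trans h1, ?_⟩
    rw [smul_eq_C_mul]
    exact Dvd.dvd.mul_left h2 _

/-- `h^0(O_S(e))` for a surface `S` of degree `d` in `P^3` -/
def sections (d e : ℕ) : ℕ :=
  (e + 3).choose 3 - (if d ≤ e then (e - d + 3).choose 3 else 0)

/-- `m (m + 1) / 2`, the number of conditions imposed by a point of multiplicity `m` -/
def cond (m : ℕ) : ℕ := m * (m + 1) / 2

/-- **Large degree: no special series, and the general member is irreducible.** Let `d ≥ 4`,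
`μ ≥ 2`, `e ≥ 400`, `e ≥ 5 μ^5` and `m_1, ..., m_r ≤ μ`. Then for a general polynomial `F` of degree
`≤ d` (outside the zero set of a polynomial `Φ` in its coefficients) and general points
`p_1, ..., p_r` on the surface `S : F = 0` (outside the zero set of a polynomial `Ψ`) the space of the
polynomials of degree `≤ e` with multiplicity `≥ m_l` at `p_l` along `S` has, modulo the multiples of
`F`, the expected dimension `max (0, h^0(O_S(e)) - ∑ m_l (m_l + 1) / 2)`.

If moreover `e ≥ 400 μ`, `e ≥ 5 μ^6` and `∑ m_l (m_l + 1) / 2 < h^0(O_S(e))`, the general element `G`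
of this space (outside the zero set of a polynomial `P` in the coefficients, which is not everything)
is not a product `G1 G2` modulo `F` with `deg G1 ≤ e1`, `deg G2 ≤ e2`, `e1 + e2 = e`,
`e1, e2 ≥ 1`; in particular `G` is not a multiple of `F`. -/
theorem result (d e μ : ℕ) (hd : 4 ≤ d) (hμ : 2 ≤ μ) (he : 400 ≤ e) (he5 : 5 * μ ^ 5 ≤ e) {r : ℕ}
    (m : Fin r → ℕ) (hm : ∀ l, m l ≤ μ) :
    ∃ Φ : MvPolynomial (Fin 3 →₀ ℕ) ℂ,
      (∃ F : MvPolynomial (Fin 3) ℂ, F.totalDegree ≤ d ∧ eval (fun α => coeff α F) Φ ≠ 0) ∧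
      ∀ F : MvPolynomial (Fin 3) ℂ, F.totalDegree ≤ d → eval (fun α => coeff α F) Φ ≠ 0 →
        F.totalDegree = d ∧ Prime F ∧
        ∃ Ψ : MvPolynomial (Fin r × Fin 3) ℂ,
          (∃ p : Fin r → Fin 3 → ℂ, (∀ l, eval (p l) F = 0) ∧
            eval (fun i : Fin r × Fin 3 => p i.1 i.2) Ψ ≠ 0) ∧
          ∀ p : Fin r → Fin 3 → ℂ, (∀ l, eval (p l) F = 0) →
            eval (fun i : Fin r × Fin 3 => p i.1 i.2) Ψ ≠ 0 →
            Module.finrank ℂ (series F e p m)
              = Module.finrank ℂ (multiples F e) + (sections d e - ∑ l, cond (m l)) ∧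
            (400 * μ ≤ e → 5 * μ ^ 6 ≤ e → ∑ l, cond (m l) < sections d e →
              ∃ P : MvPolynomial (Fin 3 →₀ ℕ) ℂ,
                (∃ G ∈ series F e p m, eval (fun α => coeff α G) P ≠ 0) ∧
                ∀ G ∈ series F e p m, eval (fun α => coeff α G) P ≠ 0 →
                  ∀ e1 e2 : ℕ, 1 ≤ e1 → 1 ≤ e2 → e1 + e2 = e → ∀ G1 G2 : MvPolynomial (Fin 3) ℂ,
                    G1.totalDegree ≤ e1 → G2.totalDegree ≤ e2 → ¬ F ∣ G - G1 * G2) :=
  FPS.large_all d e μ hd hμ he he5 m hm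

end Pool.Agent.Results.MP_9d2805_ag.LargeDegree
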